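import Pool.Agent.H10.CE.Targets

/-!
# The sum over all walks (row CNT of the board `cex_modules`)
-/

set_option autoImplicit false

namespace Pool.Agent.H38.CE

open Finset Matrix Pool.Agent.H10.CE

theorem lt_castSucc {m : ℕ} {t' : Fin (m + 1)} {t : Fin m} (h : t' < t.castSucc) :
    ∃ s : Fin m, s < t ∧ t' = s.castSucc := by
  refine ⟨⟨t'.1, ?_⟩, ?_, ?_⟩
  · have : t'.1 < t.1 := h
    omega
  · exact h
  · rfl

theorem uu_snoc {m : ℕ} (e : Fin m → ℕ × ℕ) (x : ℕ × ℕ) (t : Fin m) :
    uu (Fin.snoc e x : Fin (m + 1) → ℕ × ℕ) t.castSucc = uu e t := by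
  classical
  unfold uu
  have h : (∃ t' < t.castSucc, ((Fin.snoc e x : Fin (m + 1) → ℕ × ℕ) t').2 =
      ((Fin.snoc e x : Fin (m + 1) → ℕ × ℕ) t.castSucc).2 ∧
      ((Fin.snoc e x : Fin (m + 1) → ℕ × ℕ) t').1 %
        ((Fin.snoc e x : Fin (m + 1) → ℕ × ℕ) t.castSucc).2 =
      ((Fin.snoc e x : Fin (m + 1) → ℕ × ℕ) t.castSucc).1 %
        ((Fin.snoc e x : Fin (m + 1) → ℕ × ℕ) t.castSucc).2) ↔
      ∃ t' < t, (e t').2 = (e t).2 ∧ (e t').1 % (e t).2 = (e t).1 % (e t).2 := by
    constructor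
    · rintro ⟨t', h1, h2⟩
      obtain ⟨s, hs, rfl⟩ := lt_castSucc h1
      simp only [Fin.snoc_castSucc] at h2
      exact ⟨s, hs, h2⟩
    · rintro ⟨s, hs, h2⟩
      refine ⟨s.castSucc, ?_, ?_⟩
      · exact hs
      · simp only [Fin.snoc_castSucc]
        exact h2
  simp only [Fin.snoc_castSucc] at h ⊢
  simp only [h]

theorem rr_snoc {m : ℕ} (R Q : ℝ) (e : Fin m → ℕ × ℕ) (x : ℕ × ℕ) (t : Fin m) :
    rr R Q (Fin.snoc e x : Fin (m + 1) → ℕ × ℕ) t.castSucc = rr R Q e t := by
  classical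
  unfold rr
  have h : (∃ t' < t.castSucc, ((Fin.snoc e x : Fin (m + 1) → ℕ × ℕ) t').2 =
      ((Fin.snoc e x : Fin (m + 1) → ℕ × ℕ) t.castSucc).2) ↔
      ∃ t' < t, (e t').2 = (e t).2 := by
    constructor
    · rintro ⟨t', h1, h2⟩
      obtain ⟨s, hs, rfl⟩ := lt_castSucc h1
      simp only [Fin.snoc_castSucc] at h2
      exact ⟨s, hs, h2⟩
    · rintro ⟨s, hs, h2⟩
      refine ⟨s.castSucc, ?_, ?_⟩
      · exact hs
      · simp only [Fin.snoc_castSucc]
        exact h2
  simp only [h]

theorem uu_nonneg {m : ℕ} (e : Fin m → ℕ × ℕ) (t : Fin m) : 0 ≤ uu e t := by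
  unfold uu
  split_ifs
  · exact Nat.cast_nonneg _
  · exact zero_le_one

theorem rr_nonneg {m : ℕ} (R Q : ℝ) (hR : 0 ≤ R) (hQ : 0 ≤ Q) (e : Fin m → ℕ × ℕ) (t : Fin m) :
    0 ≤ rr R Q e t := by
  unfold rr
  split_ifs
  · exact hQ
  · exact hR

/-- the last step -/
def Nx (l r : ℕ × ℕ → ℕ) (m : ℕ) (y x : ℕ × ℕ) : Prop :=
  if m % 2 = 0 then l y = l x else r y = r x

theorem wk_snoc {ι : Type} (l r : ι → ℕ) {m : ℕ} (w : Fin (m + 1) → ι) (x : ι)
    (h : Wk l r (Fin.snoc w x : Fin (m + 1 + 1) → ι)) :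
    Wk l r w ∧ (if m % 2 = 0 then l (w (Fin.last m)) = l x else r (w (Fin.last m)) = r x) := by
  constructor
  · intro i j hij
    have := h i.castSucc j.castSucc (by simpa using hij)
    simpa only [Fin.snoc_castSucc, Fin.val_castSucc] using this
  · have := h (Fin.last m).castSucc (Fin.last (m + 1)) (by simp)
    simpa only [Fin.snoc_castSucc, Fin.snoc_last, Fin.val_castSucc, Fin.val_last] using this

open Classical in
theorem sub_sum (s : Finset (ℕ × ℕ)) (v : ℕ) (f : ℕ × ℕ → ℕ) (g : ℕ × ℕ → ℝ) :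
    ∑ x : s, (if v = f x.1 then g x.1 else 0) = ∑ x ∈ s.filter (fun x => f x = v), g x := by
  rw [Finset.sum_filter, ← Finset.sum_coe_sort s]
  refine Finset.sum_congr rfl fun x _ => ?_
  by_cases h : f x.1 = v
  · rw [if_pos h, if_pos h.symm]
  · rw [if_neg h, if_neg fun h' => h h'.symm]

theorem pf_CNT (hSTE : T_STE) : T_CNT := by
  classical
  intro M P S a m R Q hS hSP hm hR hQ hR0
  induction m, hm using Nat.le_induction with
  | base =>
    have hS0 : (0 : ℝ) < S := by exact_mod_cast hS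
    have hQ0 : 0 ≤ Q := le_trans (by positivity) hQ
    have h1 : ∀ w : Fin 1 → Ed M P, (if Wk (fun x : Ed M P => lc S x.1)
        (fun x : Ed M P => rc S a x.1) w then
        ∏ t, (uu (fun i => (w i).1) t / rr R Q (fun i => (w i).1) t) else 0) ≤ 1 / R := by
      intro w
      split_ifs
      · rw [Fin.prod_univ_one]
        unfold uu rr
        rw [if_neg, if_neg]
        · rintro ⟨t', ht, -⟩
          exact absurd ht (by simp)
        · rintro ⟨t', ht, -⟩
          exact absurd ht (by simp)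
      · positivity
    refine (Finset.sum_le_sum fun w _ => h1 w).trans ?_
    rw [Finset.sum_const, Finset.card_univ, nsmul_eq_mul]
    have h2 : Fintype.card (Fin 1 → Ed M P) = M * (Pr P).card := by
      rw [Fintype.card_fun, Fintype.card_fin, pow_one, Fintype.card_coe, Ed, Finset.card_product,
        Finset.card_range]
    rw [h2]
    push_cast
    rw [hR] at hR0 ⊢
    have h3 : (0 : ℝ) < (Pr P).card := pos_of_mul_pos_left hR0 hS0.le
    have h4 : (M : ℝ) * (Pr P).card * (1 / ((Pr P).card * S)) = M / S := by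
      field_simp
    rw [h4]
    have h5 : (0 : ℝ) ≤ M / S := by positivity
    linarith
  | succ m hm ih =>
    have hS0 : (0 : ℝ) < S := by exact_mod_cast hS
    have hQ' : 3 * (m : ℝ) ^ 2 * P ≤ Q := by
      refine le_trans ?_ hQ
      push_cast
      have : (0 : ℝ) ≤ m := Nat.cast_nonneg m
      have : (0 : ℝ) ≤ P := Nat.cast_nonneg P
      gcongr
      linarith
    have hQ0 : 0 ≤ Q := le_trans (by positivity) hQ
    have ih' := ih hQ'
    obtain ⟨k, rfl⟩ : ∃ k, m = k + 1 := ⟨m - 1, by omega⟩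
    -- split the last edge
    rw [← Equiv.sum_comp (Fin.snocEquiv fun _ : Fin (k + 1 + 1) => (Ed M P : Type))]
    rw [Fintype.sum_prod_type, Finset.sum_comm]
    set T : (Fin (k + 1) → Ed M P) → ℝ := fun w =>
      if Wk (fun x : Ed M P => lc S x.1) (fun x : Ed M P => rc S a x.1) w then
      ∏ t, (uu (fun i => (w i).1) t / rr R Q (fun i => (w i).1) t) else 0 with hT
    have hT0 : ∀ w, 0 ≤ T w := by
      intro w
      rw [hT]
      dsimp only
      split_ifs
      · exact Finset.prod_nonneg fun t _ => div_nonneg (uu_nonneg _ _)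
          (rr_nonneg R Q hR0.le hQ0 _ _)
      · exact le_refl _
    have hmain : ∀ w : Fin (k + 1) → Ed M P,
        ∑ x : Ed M P, (if Wk (fun x : Ed M P => lc S x.1) (fun x : Ed M P => rc S a x.1)
          ((Fin.snocEquiv fun _ : Fin (k + 1 + 1) => (Ed M P : Type)) (x, w)) then
          ∏ t, (uu (fun i => (((Fin.snocEquiv fun _ : Fin (k + 1 + 1) => (Ed M P : Type))
            (x, w)) i).1) t / rr R Q (fun i => (((Fin.snocEquiv
              fun _ : Fin (k + 1 + 1) => (Ed M P : Type)) (x, w)) i).1) t) else 0) ≤ T w * 2 := by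
      intro w
      have hsn : ∀ x : Ed M P, (Fin.snocEquiv fun _ : Fin (k + 1 + 1) => (Ed M P : Type)) (x, w) =
          (Fin.snoc w x : Fin (k + 1 + 1) → Ed M P) := fun x => rfl
      have hco : ∀ x : Ed M P, (fun i => ((Fin.snoc w x : Fin (k + 1 + 1) → Ed M P) i).1) =
          (Fin.snoc (fun i => (w i).1) x.1 : Fin (k + 1 + 1) → ℕ × ℕ) := by
        intro x
        funext i
        refine Fin.lastCases ?_ (fun j => ?_) i
        · simp
        · simp
      simp only [hsn, hco, Fin.prod_univ_castSucc (n := k + 1), uu_snoc, rr_snoc]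
      have hste := hSTE M P S a (k + 1) R Q (fun i => (w i).1) hS hSP (by omega)
        (fun t => (w t).2) hR hQ' hR0
      set g : ℕ × ℕ → ℝ := fun x =>
        uu (Fin.snoc (fun i => (w i).1) x : Fin (k + 1 + 1) → ℕ × ℕ) (Fin.last (k + 1)) /
        rr R Q (Fin.snoc (fun i => (w i).1) x : Fin (k + 1 + 1) → ℕ × ℕ) (Fin.last (k + 1))
        with hg
      have hg0 : ∀ x, 0 ≤ g x := fun x => div_nonneg (uu_nonneg _ _)
        (rr_nonneg R Q hR0.le hQ0 _ _)
      have hb : ∀ x : Ed M P, (if Wk (fun x : Ed M P => lc S x.1) (fun x : Ed M P => rc S a x.1)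
          (Fin.snoc w x : Fin (k + 1 + 1) → Ed M P) then
          (∏ t, (uu (fun i => (w i).1) t / rr R Q (fun i => (w i).1) t)) * g x.1 else 0) ≤
          T w * (if (if k % 2 = 0 then lc S (w (Fin.last k)).1 = lc S x.1 else
            rc S a (w (Fin.last k)).1 = rc S a x.1) then g x.1 else 0) := by
        intro x
        by_cases hw : Wk (fun x : Ed M P => lc S x.1) (fun x : Ed M P => rc S a x.1)
          (Fin.snoc w x : Fin (k + 1 + 1) → Ed M P)
        · have h2 := wk_snoc _ _ w x hw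
          rw [if_pos hw, if_pos h2.2, hT]
          dsimp only
          rw [if_pos h2.1]
        · rw [if_neg hw]
          refine mul_nonneg (hT0 w) ?_
          split_ifs
          · exact hg0 _
          · exact le_refl _
          · exact hg0 _
          · exact le_refl _
      refine (Finset.sum_le_sum fun x _ => hb x).trans ?_
      rw [← Finset.mul_sum]
      refine mul_le_mul_of_nonneg_left ?_ (hT0 w)
      by_cases hk : k % 2 = 0
      · simp only [hk, if_true]
        rw [sub_sum (Ed M P) (lc S (w (Fin.last k)).1) (lc S) g]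
        refine le_trans (le_of_eq ?_) (hste.1 (lc S (w (Fin.last k)).1))
        congr!
      · simp only [hk, if_false]
        rw [sub_sum (Ed M P) (rc S a (w (Fin.last k)).1) (rc S a) g]
        refine le_trans (le_of_eq ?_) (hste.2 (rc S a (w (Fin.last k)).1))
        congr!
    refine (Finset.sum_le_sum fun w _ => hmain w).trans ?_
    rw [← Finset.sum_mul, pow_succ, ← mul_assoc]
    exact mul_le_mul_of_nonneg_right ih' (by norm_num)

end Pool.Agent.H38.CE
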