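import Pool.Agent.H10.CE.Targets

/-!
# A net of frequencies (row NET of the board `cex_modules`)
-/

set_option autoImplicit false

namespace Pool.Agent.H38.CE

open Finset Matrix Pool.Agent.H10.CE

theorem ee_add (s t : ℝ) : ee (s + t) = ee s * ee t := by
  unfold ee
  rw [← Complex.exp_add]
  congr 1
  push_cast
  ring

theorem ee_norm (t : ℝ) : ‖ee t‖ = 1 := by
  unfold ee
  exact Complex.norm_exp_ofReal_mul_I _

theorem ee_int (k : ℤ) : ee (k : ℝ) = 1 := by
  unfold ee
  rw [Complex.exp_eq_one_iff]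
  refine ⟨k, ?_⟩
  push_cast
  ring

theorem ee_sub (s t : ℝ) : ‖ee s - ee t‖ ≤ 2 * Real.pi * |s - t| := by
  have h1 : ee s = ee t * ee (s - t) := by
    rw [← ee_add]
    congr 1
    ring
  have h2 : ee s - ee t = ee t * (ee (s - t) - 1) := by
    rw [h1]
    ring
  rw [h2, norm_mul, ee_norm, one_mul]
  have h3 : ‖Complex.exp (Complex.I * ((2 * Real.pi * (s - t) : ℝ) : ℂ)) - (1 : ℂ)‖ ≤
      ‖2 * Real.pi * (s - t)‖ := Real.norm_exp_I_mul_ofReal_sub_one_le
  have h4 : ee (s - t) = Complex.exp (Complex.I * ((2 * Real.pi * (s - t) : ℝ) : ℂ)) := by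
    unfold ee
    rw [mul_comm]
  rw [h4]
  refine h3.trans (le_of_eq ?_)
  rw [Real.norm_eq_abs, abs_mul, abs_of_pos (by positivity)]

theorem ee_fract (α β : ℝ) (n p : ℕ) :
    ee (α * n + β * p) = ee (Int.fract α * n + Int.fract β * p) := by
  have h : α * n + β * p = (Int.fract α * n + Int.fract β * p) +
      ((⌊α⌋ * n + ⌊β⌋ * p : ℤ) : ℝ) := by
    push_cast
    have h1 := Int.fract_add_floor α
    have h2 := Int.fract_add_floor β
    calc α * n + β * p = (Int.fract α + ⌊α⌋) * n + (Int.fract β + ⌊β⌋) * p := by rw [h1, h2]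
      _ = _ := by ring
  rw [h, ee_add, ee_int, mul_one]

/-- the number of multiples -/
theorem mult_card (M p c : ℕ) (hp : 0 < p) :
    ((range M).filter fun n => p ∣ c + n).card ≤ M / p + 1 := by
  have h : ((range M).filter fun n => p ∣ c + n).card ≤ (range (M / p + 1)).card := by
    refine Finset.card_le_card_of_injOn (fun n => n / p) ?_ ?_
    · intro n hn
      rw [Finset.mem_coe, Finset.mem_filter, Finset.mem_range] at hn
      rw [Finset.mem_coe, Finset.mem_range]
      have := Nat.div_le_div_right (c := p) hn.1.le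
      change n / p < M / p + 1
      omega
    · intro n1 h1 n2 h2 h12
      rw [Finset.mem_coe, Finset.mem_filter] at h1 h2
      change n1 / p = n2 / p at h12
      have h3 : n1 % p = n2 % p := by
        have e1 : (c + n1) ≡ (c + n2) [MOD p] :=
          ((Nat.modEq_zero_iff_dvd.mpr h1.2).trans (Nat.modEq_zero_iff_dvd.mpr h2.2).symm)
        exact Nat.ModEq.add_left_cancel' c e1
      rw [← Nat.div_add_mod n1 p, ← Nat.div_add_mod n2 p, h12, h3]
  rwa [Finset.card_range] at h

theorem wt_sum (S y M P p : ℕ) (hPM : P ≤ M) (hp : p ∈ Pr P) :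
    ∑ n ∈ range M, |wt S y (n, p)| ≤ 4 * M := by
  unfold Pr at hp
  rw [Finset.mem_filter, Finset.mem_Ioc] at hp
  obtain ⟨⟨hp1, hp2⟩, hpr⟩ := hp
  have hp0 : 0 < p := hpr.pos
  have h1 : ∀ n, |wt S y (n, p)| ≤ 1 + (if p ∣ S * y + n then (p : ℝ) else 0) := by
    intro n
    unfold wt
    have hpR : (1 : ℝ) ≤ p := by exact_mod_cast hp0
    by_cases h : p ∣ S * y + n
    · simp only [h, if_true]
      rw [abs_of_nonneg (by linarith)]
      linarith
    · simp only [h, if_false]
      norm_num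
  refine (Finset.sum_le_sum fun n _ => h1 n).trans ?_
  rw [Finset.sum_add_distrib, ← Finset.sum_filter, Finset.sum_const, Finset.sum_const,
    Finset.card_range, nsmul_eq_mul, nsmul_eq_mul, mul_one]
  have h2 : (((range M).filter fun n => p ∣ S * y + n).card : ℝ) ≤ (M : ℝ) / p + 1 := by
    have h3 := mult_card M p (S * y) hp0
    have h4 : ((M / p : ℕ) : ℝ) ≤ (M : ℝ) / p := Nat.cast_div_le
    have h5 : (((range M).filter fun n => p ∣ S * y + n).card : ℝ) ≤ ((M / p + 1 : ℕ) : ℝ) := by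
      exact_mod_cast h3
    push_cast at h5
    linarith
  have hpR : (0 : ℝ) < p := by exact_mod_cast hp0
  have h6 := mul_le_mul_of_nonneg_right h2 hpR.le
  have h7 : ((M : ℝ) / p + 1) * p = M + p := by field_simp
  have h8 : (p : ℝ) ≤ 2 * M := by
    have : p ≤ 2 * M := by omega
    exact_mod_cast this
  rw [h7] at h6
  linarith

theorem cs_diff (c : ℕ → ℂ) (S M P a y : ℕ) (F G : ℕ → ℂ) (α β α₁ β₁ δ : ℝ)
    (hc : ∀ p, ‖c p‖ ≤ 1) (hF : ∀ n, ‖F n‖ ≤ 1) (hG : ∀ n, ‖G n‖ ≤ 1) (hPM : P ≤ M)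
    (hδ : 0 ≤ δ)
    (hα : |Int.fract α - α₁| ≤ δ) (hβ : |Int.fract β - β₁| ≤ δ) :
    ‖CS c S M P a y F G α β‖ ≤ ‖CS c S M P a y F G α₁ β₁‖ +
      (Pr P).card * (4 * M * (2 * Real.pi * (3 * M * δ))) := by
  have h1 : ‖CS c S M P a y F G α β - CS c S M P a y F G α₁ β₁‖ ≤
      (Pr P).card * (4 * M * (2 * Real.pi * (3 * M * δ))) := by
    unfold CS
    rw [← Finset.sum_sub_distrib]
    simp only [← Finset.sum_sub_distrib]
    rw [Finset.sum_comm]
    refine (norm_sum_le _ _).trans ?_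
    have hp : ∀ p ∈ Pr P, ‖∑ n ∈ range M, ((wt S y (n, p) : ℂ) *
        (c p * F (n / S) * G ((n + a * p) / S) * ee (α * n + β * p)) - (wt S y (n, p) : ℂ) *
        (c p * F (n / S) * G ((n + a * p) / S) * ee (α₁ * n + β₁ * p)))‖ ≤
        4 * M * (2 * Real.pi * (3 * M * δ)) := by
      intro p hp
      have hp2 : p ≤ 2 * P := by
        unfold Pr at hp
        rw [Finset.mem_filter, Finset.mem_Ioc] at hp
        exact hp.1.2
      refine (norm_sum_le _ _).trans ?_
      have hn : ∀ n ∈ range M, ‖((wt S y (n, p) : ℂ) *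
          (c p * F (n / S) * G ((n + a * p) / S) * ee (α * n + β * p)) - (wt S y (n, p) : ℂ) *
          (c p * F (n / S) * G ((n + a * p) / S) * ee (α₁ * n + β₁ * p)))‖ ≤
          |wt S y (n, p)| * (2 * Real.pi * (3 * M * δ)) := by
        intro n hn
        have hnM : n < M := Finset.mem_range.mp hn
        have e1 : (wt S y (n, p) : ℂ) *
          (c p * F (n / S) * G ((n + a * p) / S) * ee (α * n + β * p)) - (wt S y (n, p) : ℂ) *
          (c p * F (n / S) * G ((n + a * p) / S) * ee (α₁ * n + β₁ * p)) =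
          (wt S y (n, p) : ℂ) * ((c p * F (n / S) * G ((n + a * p) / S)) *
          (ee (α * n + β * p) - ee (α₁ * n + β₁ * p))) := by ring
        rw [e1, norm_mul, Complex.norm_real, Real.norm_eq_abs]
        refine mul_le_mul_of_nonneg_left ?_ (abs_nonneg _)
        rw [norm_mul]
        have e2 : ‖c p * F (n / S) * G ((n + a * p) / S)‖ ≤ 1 := by
          rw [norm_mul, norm_mul]
          have := hc p
          have := hF (n / S)
          have := hG ((n + a * p) / S)
          calc ‖c p‖ * ‖F (n / S)‖ * ‖G ((n + a * p) / S)‖ ≤ 1 * 1 * 1 := by gcongr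
            _ = 1 := by norm_num
        have e3 : ‖ee (α * n + β * p) - ee (α₁ * n + β₁ * p)‖ ≤ 2 * Real.pi * (3 * M * δ) := by
          rw [ee_fract α β n p]
          refine (ee_sub _ _).trans ?_
          refine mul_le_mul_of_nonneg_left ?_ (by positivity)
          have e4 : Int.fract α * n + Int.fract β * p - (α₁ * n + β₁ * p) =
              (Int.fract α - α₁) * n + (Int.fract β - β₁) * p := by ring
          rw [e4]
          refine (abs_add_le _ _).trans ?_
          rw [abs_mul, abs_mul, Nat.abs_cast, Nat.abs_cast]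
          have e5 : (n : ℝ) ≤ M := by exact_mod_cast hnM.le
          have e6 : (p : ℝ) ≤ 2 * M := by
            have : p ≤ 2 * M := by omega
            exact_mod_cast this
          have e7 : |Int.fract α - α₁| * n ≤ δ * M := by gcongr
          have e8 : |Int.fract β - β₁| * p ≤ δ * (2 * M) := by gcongr
          linarith
        calc ‖c p * F (n / S) * G ((n + a * p) / S)‖ * ‖ee (α * n + β * p) - ee (α₁ * n + β₁ * p)‖
            ≤ 1 * (2 * Real.pi * (3 * M * δ)) := mul_le_mul e2 e3 (norm_nonneg _) zero_le_one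
          _ = _ := one_mul _
      refine (Finset.sum_le_sum hn).trans ?_
      rw [← Finset.sum_mul]
      exact mul_le_mul_of_nonneg_right (wt_sum S y M P p hPM hp) (by positivity)
    refine (Finset.sum_le_sum hp).trans ?_
    rw [Finset.sum_const, nsmul_eq_mul]
  have h2 := norm_sub_norm_le (CS c S M P a y F G α β) (CS c S M P a y F G α₁ β₁)
  linarith

theorem pf_NET : T_NET := by
  classical
  intro c S M P a Y₁ Y ε B hc hε hε1 hS hP hPM hB
  have hM1 : (1 : ℝ) ≤ M := by
    have : 1 ≤ M := by omega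
    exact_mod_cast this
  have hB0 : 0 ≤ B := le_trans (Nat.cast_nonneg _) (hB 0 0)
  set K : ℕ := ⌈152 * (M : ℝ) / ε⌉₊ with hK
  have hMe : (1 : ℝ) ≤ M / ε := by
    rw [le_div_iff₀ hε]
    linarith
  have hK1 : 152 * (M : ℝ) / ε ≤ K := Nat.le_ceil _
  have hK2 : (K : ℝ) ≤ 153 * (M / ε) := by
    have h1 : (K : ℝ) < 152 * (M : ℝ) / ε + 1 := Nat.ceil_lt_add_one (by positivity)
    have h2 : 152 * (M : ℝ) / ε = 152 * (M / ε) := by ring
    linarith
  have hK0 : (0 : ℝ) < K := lt_of_lt_of_le (by positivity) hK1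
  -- rounding
  have hrd : ∀ α : ℝ, ∃ i ∈ range K, |Int.fract α - (i : ℝ) / K| ≤ 1 / K := by
    intro α
    have h0 := Int.fract_nonneg α
    have h1 := Int.fract_lt_one α
    refine ⟨⌊(K : ℝ) * Int.fract α⌋₊, ?_, ?_⟩
    · rw [Finset.mem_range, Nat.floor_lt (by positivity)]
      nlinarith
    · have h2 := Nat.floor_le (a := (K : ℝ) * Int.fract α) (by positivity)
      have h3 := Nat.lt_floor_add_one ((K : ℝ) * Int.fract α)
      rw [abs_le]
      constructor
      · have : (⌊(K : ℝ) * Int.fract α⌋₊ : ℝ) / K ≤ Int.fract α := by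
          rw [div_le_iff₀ hK0]
          linarith
        have h4 : (0 : ℝ) ≤ 1 / K := by positivity
        linarith
      · have : Int.fract α ≤ (⌊(K : ℝ) * Int.fract α⌋₊ : ℝ) / K + 1 / K := by
          rw [← add_div, le_div_iff₀ hK0]
          linarith
        linarith
  set Bd : ℝ → ℝ → Finset ℕ := fun α β => (Ico Y₁ (Y₁ + Y)).filter fun y => ∃ F G : ℕ → ℂ,
    (∀ n, ‖F n‖ ≤ 1) ∧ (∀ n, ‖G n‖ ≤ 1) ∧ ε / 2 * M * (Pr P).card < ‖CS c S M P a y F G α β‖
    with hBd
  have hsub : ((Ico Y₁ (Y₁ + Y)).filter fun y => ∃ (F G : ℕ → ℂ) (α β : ℝ), (∀ n, ‖F n‖ ≤ 1) ∧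
      (∀ n, ‖G n‖ ≤ 1) ∧ ε * M * (Pr P).card < ‖CS c S M P a y F G α β‖) ⊆
      (range K ×ˢ range K).biUnion fun ij => Bd ((ij.1 : ℝ) / K) ((ij.2 : ℝ) / K) := by
    intro y hy
    rw [Finset.mem_filter] at hy
    obtain ⟨hyI, F, G, α, β, hF, hG, hbig⟩ := hy
    obtain ⟨i, hi, hαi⟩ := hrd α
    obtain ⟨j, hj, hβj⟩ := hrd β
    rw [Finset.mem_biUnion]
    refine ⟨(i, j), Finset.mem_product.mpr ⟨hi, hj⟩, ?_⟩
    rw [hBd]
    dsimp only
    rw [Finset.mem_filter]
    refine ⟨hyI, F, G, hF, hG, ?_⟩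
    have h1 := cs_diff c S M P a y F G α β ((i : ℝ) / K) ((j : ℝ) / K) (1 / K) hc hF hG hPM
      (by positivity) hαi hβj
    have h2 : ((Pr P).card : ℝ) * (4 * M * (2 * Real.pi * (3 * M * (1 / K)))) ≤
        ε / 2 * M * (Pr P).card := by
      have h3 : 4 * (M : ℝ) * (2 * Real.pi * (3 * M * (1 / K))) ≤ ε / 2 * M := by
        have h4 : (M : ℝ) * (1 / K) ≤ ε / 152 := by
          rw [mul_one_div, div_le_div_iff₀ hK0 (by norm_num)]
          rw [div_le_iff₀ hε] at hK1
          linarith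
        have h5 : Real.pi ≤ 3.15 := Real.pi_lt_d2.le
        have h6 : 0 < Real.pi := Real.pi_pos
        calc 4 * (M : ℝ) * (2 * Real.pi * (3 * M * (1 / K)))
            = 24 * Real.pi * M * (M * (1 / K)) := by ring
          _ ≤ 24 * Real.pi * M * (ε / 152) := mul_le_mul_of_nonneg_left h4 (by positivity)
          _ ≤ 24 * 3.15 * M * (ε / 152) := by gcongr
          _ ≤ ε / 2 * M := by
              have : 0 ≤ ε * M := by positivity
              nlinarith
      calc ((Pr P).card : ℝ) * (4 * M * (2 * Real.pi * (3 * M * (1 / K))))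
          ≤ (Pr P).card * (ε / 2 * M) := mul_le_mul_of_nonneg_left h3 (Nat.cast_nonneg _)
        _ = _ := by ring
    linarith
  have h1 : (((Ico Y₁ (Y₁ + Y)).filter fun y => ∃ (F G : ℕ → ℂ) (α β : ℝ), (∀ n, ‖F n‖ ≤ 1) ∧
      (∀ n, ‖G n‖ ≤ 1) ∧ ε * M * (Pr P).card < ‖CS c S M P a y F G α β‖).card : ℝ) ≤
      ∑ ij ∈ range K ×ˢ range K, ((Bd ((ij.1 : ℝ) / K) ((ij.2 : ℝ) / K)).card : ℝ) := by
    have := (Finset.card_le_card hsub).trans Finset.card_biUnion_le
    exact_mod_cast this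
  have h2 : ∑ ij ∈ range K ×ˢ range K, ((Bd ((ij.1 : ℝ) / K) ((ij.2 : ℝ) / K)).card : ℝ) ≤
      ∑ ij ∈ range K ×ˢ range K, B := by
    refine Finset.sum_le_sum fun ij _ => ?_
    refine le_trans (le_of_eq ?_) (hB ((ij.1 : ℝ) / K) ((ij.2 : ℝ) / K))
    congr!
  refine le_trans (le_of_eq ?_) ((h1.trans h2).trans ?_)
  · congr!
  · rw [Finset.sum_const, Finset.card_product, Finset.card_range, nsmul_eq_mul]
    push_cast
    have h3 : (K : ℝ) * K ≤ (300 * M / ε) ^ 2 := by
      have h4 : (K : ℝ) ≤ 300 * M / ε := by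
        refine hK2.trans ?_
        have : 300 * (M : ℝ) / ε = 300 * (M / ε) := by ring
        rw [this]
        linarith
      rw [sq]
      exact mul_le_mul h4 h4 hK0.le (by positivity)
    exact mul_le_mul_of_nonneg_right h3 hB0

end Pool.Agent.H38.CE
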