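import Pool.Agent.H10.CE.Targets

/-!
# At most half of the steps are new (row NEW of the board `cex_modules`)
-/

set_option autoImplicit false

namespace Pool.Agent.H38.CE

open Finset Matrix Pool.Agent.H10.CE

theorem pf_NEW : T_NEW := by
  classical
  intro k e R Q hQ hQR hG
  have h0 : ∏ t, rr R Q e t = Q ^ (univ.filter fun t => ∃ t' < t, (e t').2 = (e t).2).card *
      R ^ (univ.filter fun t => ¬ ∃ t' < t, (e t').2 = (e t).2).card := by
    unfold rr
    rw [Finset.prod_ite, Finset.prod_const, Finset.prod_const]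
  rw [h0]
  set O := univ.filter fun t => ∃ t' < t, (e t').2 = (e t).2 with hO
  set N := univ.filter fun t => ¬ ∃ t' < t, (e t').2 = (e t).2 with hN
  have hsum : O.card + N.card = 2 * k := by
    have h := Finset.card_filter_add_card_filter_not (s := (univ : Finset (Fin (2 * k))))
      (fun t => ∃ t' < t, (e t').2 = (e t).2)
    rw [Finset.card_univ, Fintype.card_fin] at h
    exact h
  choose f hf1 hf2 using hG
  have hle : N.card ≤ O.card := by
    refine Finset.card_le_card_of_injOn f ?_ ?_
    · intro t ht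
      rw [Finset.mem_coe, hN, Finset.mem_filter] at ht
      rw [Finset.mem_coe, hO, Finset.mem_filter]
      refine ⟨Finset.mem_univ _, t, ?_, (hf2 t).symm⟩
      rcases lt_trichotomy (f t) t with h | h | h
      · exact absurd ⟨f t, h, hf2 t⟩ ht.2
      · exact absurd h (hf1 t)
      · exact h
    · intro t1 h1 t2 h2 h12
      rw [Finset.mem_coe, hN, Finset.mem_filter] at h1 h2
      have h3 : (e t1).2 = (e t2).2 := by rw [← hf2 t1, ← hf2 t2, h12]
      rcases lt_trichotomy t1 t2 with h | h | h
      · exact absurd ⟨t1, h, h3⟩ h2.2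
      · exact h
      · exact absurd ⟨t2, h, h3.symm⟩ h1.2
  have hR : 0 < R := lt_of_lt_of_le hQ hQR
  obtain ⟨b, hb⟩ := Nat.exists_eq_add_of_le hle
  have hfin : ∀ a c : ℕ, a + c = k → Q ^ (a + 2 * c) * R ^ a ≤ (R * Q) ^ k := by
    intro a c hac
    rw [← hac, pow_add, pow_add, pow_mul, mul_pow, mul_pow]
    have h1 : (Q ^ 2) ^ c ≤ R ^ c * Q ^ c := by
      rw [← mul_pow]
      exact pow_le_pow_left₀ (by positivity) (by nlinarith) c
    have h2 : 0 ≤ Q ^ a * R ^ a := by positivity
    calc Q ^ a * (Q ^ 2) ^ c * R ^ a = Q ^ a * R ^ a * (Q ^ 2) ^ c := by ring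
      _ ≤ Q ^ a * R ^ a * (R ^ c * Q ^ c) := mul_le_mul_of_nonneg_left h1 h2
      _ = _ := by ring
  have hO2 : O.card = N.card + 2 * (k - N.card) := by omega
  rw [hO2]
  exact hfin _ _ (by omega)

end Pool.Agent.H38.CE
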